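import Pool.Agent.H852R2.TE.Defs
import Pool.Agent.H457R2.RC.CH3

/-!
Project TE, task CNTE (helper640): the counting lemma.
-/

set_option autoImplicit false

namespace TE852
open RC14 RC852 Finset Filter Equiv

namespace CNTE

/-- a large part of a set of moved points which is moved off itself -/
theorem indep {n : ℕ} (σ : Perm (Fin n)) (Y : Finset (Fin n)) (hY : ∀ x ∈ Y, σ x ≠ x) :
    ∃ A ⊆ Y, (∀ x ∈ A, σ x ∉ A) ∧ Y.card ≤ 3 * A.card := by
  classical
  obtain ⟨A, hA, hmax⟩ := Finset.exists_max_image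
    (Y.powerset.filter (fun A => ∀ x ∈ A, σ x ∉ A)) (fun A => A.card)
    ⟨∅, by simp⟩
  rw [mem_filter, mem_powerset] at hA
  refine ⟨A, hA.1, hA.2, ?_⟩
  have hsub : Y ⊆ A ∪ (A.image σ ∪ A.image (σ⁻¹ : Perm (Fin n))) := by
    intro x hx
    rw [mem_union, mem_union, mem_image, mem_image]
    by_contra hc
    push Not at hc
    obtain ⟨h1, h2, h3⟩ := hc
    have hins : insert x A ∈ Y.powerset.filter (fun A => ∀ x ∈ A, σ x ∉ A) := by
      rw [mem_filter, mem_powerset]
      refine ⟨insert_subset hx hA.1, ?_⟩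
      intro y hy hy2
      rw [mem_insert] at hy hy2
      rcases hy with rfl | hy
      · rcases hy2 with h | h
        · exact hY _ hx h
        · exact h3 _ h (by simp)
      · rcases hy2 with h | h
        · exact h2 y hy h
        · exact hA.2 y hy h
    have := hmax _ hins
    rw [card_insert_of_notMem h1] at this
    omega
  have h1 := card_le_card hsub
  have h2 := card_union_le A (A.image σ ∪ A.image (σ⁻¹ : Perm (Fin n)))
  have h3 := card_union_le (A.image σ) (A.image (σ⁻¹ : Perm (Fin n)))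
  have h4 : (A.image σ).card ≤ A.card := card_image_le
  have h5 : (A.image (σ⁻¹ : Perm (Fin n))).card ≤ A.card := card_image_le
  omega

theorem exists_I {j n : ℕ} (g : Perm (Fin n)) (a : Tup j n) (X : Finset (Fin j))
    (hX : ∀ l ∈ X, g (a l) ≠ a l ∧ ∃ m, g (a m) = a l) (s : ℕ) (hs : 12 * s < j + 12)
    (hc : j ≤ 4 * X.card) :
    ∃ I : Finset (Fin j), I.card = s ∧ ∃ φ : I → Fin j, ∀ l : I, a l = g (a (φ l)) ∧ φ l ∉ I := by
  classical
  obtain ⟨A, hA1, hA2, hA3⟩ := indep g (X.map a) (by
    intro x hx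
    rw [Finset.mem_map] at hx
    obtain ⟨l, hl, rfl⟩ := hx
    exact (hX l hl).1)
  rw [card_map] at hA3
  have hcard : (X.filter fun l => a l ∈ A).card = A.card := by
    rw [← card_map a]
    congr 1
    ext y
    rw [Finset.mem_map]
    constructor
    · rintro ⟨l, hl, rfl⟩
      exact (mem_filter.1 hl).2
    · intro hy
      have := hA1 hy
      rw [Finset.mem_map] at this
      obtain ⟨l, hl, rfl⟩ := this
      exact ⟨l, mem_filter.2 ⟨hl, hy⟩, rfl⟩
  obtain ⟨I, hI1, hI2⟩ := exists_subset_card_eq (s := X.filter fun l => a l ∈ A) (n := s)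
    (by omega)
  have hφ : ∀ l : I, ∃ m, g (a m) = a l := fun l => (hX l (mem_filter.1 (hI1 l.2)).1).2
  choose φ hφ using hφ
  refine ⟨I, hI2, φ, fun l => ⟨(hφ l).symm, fun hmem => ?_⟩⟩
  have h1 := (mem_filter.1 (hI1 hmem)).2
  have h2 := (mem_filter.1 (hI1 l.2)).2
  refine hA2 _ h1 ?_
  rw [hφ]
  exact h2

theorem rp {x : ℝ} (h0 : 0 ≤ x) (h1 : x ≤ 1) {s : ℕ} {z : ℝ} (hz : 0 ≤ z) (hs : z ≤ s) :
    x ^ s ≤ x ^ z := by
  rw [← Real.rpow_natCast]
  exact Real.rpow_le_rpow_of_exponent_ge' h0 h1 hz hs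

end CNTE

/-- counting lemma (refines `CH3`) -/
theorem CNTE (j n F : ℕ) (hj1 : 1 ≤ j) (hj : 2 * j + 2 ≤ n) (hFn : F ≤ n - j)
    (g : Perm (Fin n)) (hF : nfix g ≤ F) :
    ∑ a : Tup j n, (1 / ((n - j).choose (#{l : Fin j | a l ∉ Set.range (mv g a)})) : ℝ) ≤
      Fintype.card (Tup j n) *
        (((j : ℝ) / ((n - j : ℕ) : ℝ)) ^ ((j : ℝ) / 2) +
          2 ^ j * ((F : ℝ) / ((n - j : ℕ) : ℝ)) ^ ((j : ℝ) / 4) +
          2 ^ j * ((j : ℝ) / ((n - j : ℕ) : ℝ)) ^ ((j : ℝ) / 12)) := by
  classical
  have hNj : j ≤ n - j := by omega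
  have hN : (0 : ℝ) < ((n - j : ℕ) : ℝ) := by
    have : 1 ≤ n - j := by omega
    exact_mod_cast this
  have hjr : (1 : ℝ) ≤ j := by exact_mod_cast hj1
  set u : ℝ := (j : ℝ) / ((n - j : ℕ) : ℝ) with hu
  set f : ℝ := (F : ℝ) / ((n - j : ℕ) : ℝ) with hf
  have hu0 : 0 ≤ u := by positivity
  have hu1 : u ≤ 1 := by
    rw [hu, div_le_one hN]
    exact_mod_cast hNj
  have hf0 : 0 ≤ f := by positivity
  have hf1 : f ≤ 1 := by
    rw [hf, div_le_one hN]
    exact_mod_cast hFn
  let t : Tup j n → ℕ := fun a => #{l : Fin j | a l ∉ Set.range (mv g a)}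
  let X0 : Tup j n → Finset (Fin j) := fun a => univ.filter fun l => g (a l) = a l
  let X1 : Tup j n → Finset (Fin j) := fun a => univ.filter fun l => g (a l) ≠ a l ∧
    ∃ m, g (a m) = a l
  have htj : ∀ a, t a ≤ j := fun a => by
    calc t a ≤ (univ : Finset (Fin j)).card := card_le_card (filter_subset _ _)
      _ = j := by simp
  have hterm : ∀ a, (1 / ((n - j).choose (t a)) : ℝ) ≤ u ^ t a := by
    intro a
    have hc := CH3.pow_choose (t a) (n - j) j (htj a) hNj
    have hpos : (0 : ℝ) < (n - j).choose (t a) := by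
      exact_mod_cast Nat.choose_pos ((htj a).trans hNj)
    rw [hu, div_pow, div_le_div_iff₀ hpos (by positivity), one_mul]
    exact_mod_cast hc
  have hXt : ∀ a, (X0 a).card + (X1 a).card + t a = j := by
    intro a
    have h1 : (univ : Finset (Fin j)) = (X0 a ∪ X1 a) ∪
        (univ.filter fun l => a l ∉ Set.range (mv g a)) := by
      ext l
      simp only [mem_univ, mem_union, X0, X1, mem_filter, true_and, true_iff, Set.mem_range,
        mv_apply]
      by_cases h : g (a l) = a l
      · exact Or.inl (Or.inl h)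
      · by_cases h' : ∃ m, g (a m) = a l
        · exact Or.inl (Or.inr ⟨h, h'⟩)
        · exact Or.inr h'
    have d1 : Disjoint (X0 a) (X1 a) := by
      rw [Finset.disjoint_left]
      intro l h1 h2
      exact (mem_filter.1 h2).2.1 (mem_filter.1 h1).2
    have d2 : Disjoint (X0 a ∪ X1 a) (univ.filter fun l => a l ∉ Set.range (mv g a)) := by
      rw [Finset.disjoint_left]
      intro l h1 h2
      apply (mem_filter.1 h2).2
      rw [mem_union] at h1
      rcases h1 with h1 | h1
      · exact ⟨l, (mem_filter.1 h1).2⟩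
      · obtain ⟨m, hm⟩ := (mem_filter.1 h1).2.2
        exact ⟨m, hm⟩
    have h2 := congrArg Finset.card h1
    rw [card_union_of_disjoint d2, card_union_of_disjoint d1, card_univ, Fintype.card_fin] at h2
    exact h2.symm
  -- pointwise bound
  have hpt : ∀ a : Tup j n, (1 / ((n - j).choose (t a)) : ℝ) ≤ u ^ ((j : ℝ) / 2) +
      (if j ≤ 4 * (X0 a).card then 1 else 0) + (if j ≤ 4 * (X1 a).card then 1 else 0) := by
    intro a
    have h0 : 0 ≤ u ^ ((j : ℝ) / 2) := Real.rpow_nonneg hu0 _
    by_cases hbig : j ≤ 2 * t a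
    · have h1 : u ^ t a ≤ u ^ ((j : ℝ) / 2) := by
        apply CNTE.rp hu0 hu1 (by positivity)
        rw [div_le_iff₀ (by norm_num)]
        have : (j : ℝ) ≤ 2 * t a := by exact_mod_cast hbig
        linarith
      have h2 : (0 : ℝ) ≤ (if j ≤ 4 * (X0 a).card then 1 else 0) := by split_ifs <;> norm_num
      have h3 : (0 : ℝ) ≤ (if j ≤ 4 * (X1 a).card then 1 else 0) := by split_ifs <;> norm_num
      linarith [hterm a]
    · have h1 : u ^ t a ≤ 1 := pow_le_one₀ hu0 hu1
      have h2 := hXt a
      have h3 : j ≤ 4 * (X0 a).card ∨ j ≤ 4 * (X1 a).card := by omega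
      have h4 := hterm a
      rcases h3 with h3 | h3
      · rw [if_pos h3]
        have h5 : (0 : ℝ) ≤ (if j ≤ 4 * (X1 a).card then 1 else 0) := by split_ifs <;> norm_num
        linarith
      · rw [if_pos h3]
        have h5 : (0 : ℝ) ≤ (if j ≤ 4 * (X0 a).card then 1 else 0) := by split_ifs <;> norm_num
        linarith
  -- many fixed points
  have hcount0 : ((univ.filter fun a : Tup j n => j ≤ 4 * (X0 a).card).card : ℝ) ≤
      Fintype.card (Tup j n) * (2 ^ j * f ^ ((j : ℝ) / 4)) := by
    set s := (j + 3) / 4 with hs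
    have hsub : (univ.filter fun a : Tup j n => j ≤ 4 * (X0 a).card) ⊆
        (powersetCard s (univ : Finset (Fin j))).biUnion
          (fun I => univ.filter fun a : Tup j n => ∀ l ∈ I, g (a l) = a l) := by
      intro a ha
      rw [mem_filter] at ha
      obtain ⟨I, hI1, hI2⟩ := exists_subset_card_eq (s := X0 a) (n := s) (by omega)
      rw [mem_biUnion]
      refine ⟨I, mem_powersetCard.2 ⟨subset_univ _, hI2⟩, mem_filter.2 ⟨mem_univ _, ?_⟩⟩
      intro l hl
      exact (mem_filter.1 (hI1 hl)).2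
    have hI : ∀ I ∈ powersetCard s (univ : Finset (Fin j)),
        ((univ.filter fun a : Tup j n => ∀ l ∈ I, g (a l) = a l).card : ℝ) ≤
          Fintype.card (Tup j n) * f ^ s := by
      intro I hI
      have hIc := (mem_powersetCard.1 hI).2
      have hc := CH3.count g F hF I ∅ (disjoint_empty_right _)
        (univ.filter fun a : Tup j n => ∀ l ∈ I, g (a l) = a l)
        (fun a ha => (mem_filter.1 ha).2)
        (fun a _ a' _ h => Function.Embedding.ext fun l => h l (notMem_empty l))
      rw [card_empty, add_zero, hIc] at hc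
      rw [hf, div_pow, ← mul_div_assoc, le_div_iff₀ (by positivity)]
      exact_mod_cast hc
    have h1 : ((univ.filter fun a : Tup j n => j ≤ 4 * (X0 a).card).card : ℝ) ≤
        ∑ I ∈ powersetCard s (univ : Finset (Fin j)),
          ((univ.filter fun a : Tup j n => ∀ l ∈ I, g (a l) = a l).card : ℝ) := by
      exact_mod_cast (card_le_card hsub).trans card_biUnion_le
    have h2 : ((powersetCard s (univ : Finset (Fin j))).card : ℝ) ≤ 2 ^ j := by
      rw [card_powersetCard, card_univ, Fintype.card_fin]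
      exact_mod_cast Nat.choose_le_two_pow j s
    have h3 : f ^ s ≤ f ^ ((j : ℝ) / 4) := by
      apply CNTE.rp hf0 hf1 (by positivity)
      rw [div_le_iff₀ (by norm_num)]
      have : j ≤ s * 4 := by omega
      exact_mod_cast this
    calc ((univ.filter fun a : Tup j n => j ≤ 4 * (X0 a).card).card : ℝ)
        ≤ ∑ I ∈ powersetCard s (univ : Finset (Fin j)), (Fintype.card (Tup j n) : ℝ) * f ^ s :=
          h1.trans (sum_le_sum hI)
      _ = ((powersetCard s (univ : Finset (Fin j))).card : ℝ) *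
          (Fintype.card (Tup j n) * f ^ s) := by rw [sum_const, nsmul_eq_mul]
      _ ≤ 2 ^ j * (Fintype.card (Tup j n) * f ^ ((j : ℝ) / 4)) := by gcongr
      _ = _ := by ring
  -- many images in the tuple
  have hcount1 : ((univ.filter fun a : Tup j n => j ≤ 4 * (X1 a).card).card : ℝ) ≤
      Fintype.card (Tup j n) * (2 ^ j * u ^ ((j : ℝ) / 12)) := by
    set s := (j + 11) / 12 with hs
    have hsub : (univ.filter fun a : Tup j n => j ≤ 4 * (X1 a).card) ⊆
        (powersetCard s (univ : Finset (Fin j))).biUnion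
          (fun I => (univ : Finset (I → Fin j)).biUnion (fun φ =>
            univ.filter fun a : Tup j n => ∀ l : I, a l = g (a (φ l)) ∧ φ l ∉ I)) := by
      intro a ha
      rw [mem_filter] at ha
      obtain ⟨I, hI, φ, hφ⟩ := CNTE.exists_I g a (X1 a) (fun l hl => (mem_filter.1 hl).2) s
        (by omega) ha.2
      rw [mem_biUnion]
      refine ⟨I, mem_powersetCard.2 ⟨subset_univ _, hI⟩, ?_⟩
      rw [mem_biUnion]
      exact ⟨φ, mem_univ _, mem_filter.2 ⟨mem_univ _, hφ⟩⟩
    have hI : ∀ I ∈ powersetCard s (univ : Finset (Fin j)), ∀ φ : I → Fin j,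
        ((univ.filter fun a : Tup j n => ∀ l : I, a l = g (a (φ l)) ∧ φ l ∉ I).card : ℝ) ≤
          Fintype.card (Tup j n) * (1 / ((n - j : ℕ) : ℝ)) ^ s := by
      intro I hI φ
      have hIc := (mem_powersetCard.1 hI).2
      have hc := CH3.count g F hF ∅ I (disjoint_empty_left _)
        (univ.filter fun a : Tup j n => ∀ l : I, a l = g (a (φ l)) ∧ φ l ∉ I)
        (fun a ha l hl => absurd hl (notMem_empty l))
        (fun a ha a' ha' h => Function.Embedding.ext fun l => by
          rw [mem_filter] at ha ha'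
          by_cases hl : l ∈ I
          · have h1 := ha.2 ⟨l, hl⟩
            have h2 := ha'.2 ⟨l, hl⟩
            have h3 := h (φ ⟨l, hl⟩) h1.2
            have h4 : a l = g (a (φ ⟨l, hl⟩)) := h1.1
            have h5 : a' l = g (a' (φ ⟨l, hl⟩)) := h2.1
            rw [h4, h5, h3]
          · exact h l hl)
      rw [card_empty, zero_add, hIc, pow_zero, mul_one] at hc
      rw [div_pow, one_pow, ← mul_div_assoc, mul_one, le_div_iff₀ (by positivity)]
      exact_mod_cast hc
    have h1 : ((univ.filter fun a : Tup j n => j ≤ 4 * (X1 a).card).card : ℝ) ≤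
        ∑ I ∈ powersetCard s (univ : Finset (Fin j)), ∑ φ : I → Fin j,
          ((univ.filter fun a : Tup j n => ∀ l : I, a l = g (a (φ l)) ∧ φ l ∉ I).card : ℝ) := by
      have h2 := (card_le_card hsub).trans card_biUnion_le
      have h3 := h2.trans (sum_le_sum fun I _ => card_biUnion_le)
      exact_mod_cast h3
    have h2 : ((powersetCard s (univ : Finset (Fin j))).card : ℝ) ≤ 2 ^ j := by
      rw [card_powersetCard, card_univ, Fintype.card_fin]
      exact_mod_cast Nat.choose_le_two_pow j s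
    have h3 : u ^ s ≤ u ^ ((j : ℝ) / 12) := by
      apply CNTE.rp hu0 hu1 (by positivity)
      rw [div_le_iff₀ (by norm_num)]
      have : j ≤ s * 12 := by omega
      exact_mod_cast this
    have h4 : ∀ I ∈ powersetCard s (univ : Finset (Fin j)), ∑ φ : I → Fin j,
          ((univ.filter fun a : Tup j n => ∀ l : I, a l = g (a (φ l)) ∧ φ l ∉ I).card : ℝ) ≤
          Fintype.card (Tup j n) * u ^ s := by
      intro I hI'
      refine (sum_le_sum fun φ _ => hI I hI' φ).trans (le_of_eq ?_)
      rw [sum_const, card_univ, Fintype.card_fun, Fintype.card_fin, Fintype.card_coe,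
        (mem_powersetCard.1 hI').2, nsmul_eq_mul, hu, div_pow, div_pow, one_pow]
      push_cast
      ring
    calc ((univ.filter fun a : Tup j n => j ≤ 4 * (X1 a).card).card : ℝ)
        ≤ ∑ I ∈ powersetCard s (univ : Finset (Fin j)), (Fintype.card (Tup j n) : ℝ) * u ^ s :=
          h1.trans (sum_le_sum h4)
      _ = ((powersetCard s (univ : Finset (Fin j))).card : ℝ) *
          (Fintype.card (Tup j n) * u ^ s) := by rw [sum_const, nsmul_eq_mul]
      _ ≤ 2 ^ j * (Fintype.card (Tup j n) * u ^ ((j : ℝ) / 12)) := by gcongr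
      _ = _ := by ring
  calc ∑ a : Tup j n, (1 / ((n - j).choose (t a)) : ℝ)
      ≤ ∑ a : Tup j n, (u ^ ((j : ℝ) / 2) + (if j ≤ 4 * (X0 a).card then 1 else 0) +
          (if j ≤ 4 * (X1 a).card then 1 else 0)) := sum_le_sum fun a _ => hpt a
    _ = Fintype.card (Tup j n) * u ^ ((j : ℝ) / 2) +
        ((univ.filter fun a : Tup j n => j ≤ 4 * (X0 a).card).card : ℝ) +
        ((univ.filter fun a : Tup j n => j ≤ 4 * (X1 a).card).card : ℝ) := by
        rw [sum_add_distrib, sum_add_distrib, sum_const, nsmul_eq_mul, card_univ, sum_boole,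
          sum_boole]
    _ ≤ _ := by
        rw [mul_add, mul_add]
        linarith

end TE852
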